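import Pool.Agent.V7H2.HT.Num

/-!
# The standard conjecture of Hodge type for towers of Lefschetz maps

Let `(X, D)` be a polarized variety for which the hard Lefschetz theorem holds (a theorem of Deligne
for ample divisors) and for which the conjecture `A` of Lefschetz type is known. A *Lefschetz map*
`f : Y ⟶ X` is a morphism with `dim Y ≤ dim X` such that `f_* 1` is a positive rational multiple of
the class of `D ^ (dim X - dim Y)` and `f^*` is surjective in degrees smaller than `dim Y`
(`IsLefschetzMap`). Examples are the inclusions of smooth complete intersections of divisors in the
linear systems `|m D|` and the cyclic coverings of `X` branched along smooth divisors in `|m D|`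
(Lefschetz theorems). *Towers* of such maps, with the pulled back polarizations, are considered
(`IsLefschetzTower`), so also complete intersections in cyclic coverings of complete intersections,
and so on. The dimensions of the intermediate varieties are arbitrary, and nothing is assumed about
the algebraic cycles on `Y` or on the intermediate varieties.

Then the hard Lefschetz theorem and the conjecture `A` hold for `Y`; in each codimension `j` with
`2 j < dim Y` the conjecture of Hodge type for `Y` is equivalent to the one for `X`; and the whole
conjecture for `Y` is equivalent to the one for `X` in the codimensions `j ≤ dim Y / 2` together with
the positivity of the intersection form on the vanishing algebraic classes of the middle degree (the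
ones with direct image zero under `f`). In particular the conjecture for `X` implies the one for all
`Y` of odd dimension, and for all `Y` whose vanishing cohomology has infinite monodromy
(`InfiniteMonodromy`; the operators in the set can be the elements of a monodromy group, or
the powers of a Frobenius endomorphism divided by powers of `q ^ (dim Y / 2)`). Homological and
numerical equivalence then coincide on `Y`.

So for instance the standard conjectures of Hodge type and `D` hold, in all codimensions, for all
smooth complete intersections of odd dimension of multiples of an ample divisor in arbitrary
products of elliptic curves and abelian surfaces over finite fields and for all towers of cyclic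
coverings of such varieties, since they are known for those products.
-/

open CategoryTheory AlgebraicGeometry

universe u v

namespace Pool.Agent.Results.MP_361a6f_ag.LefschetzTowersH2

open Pool.Agent.H914 Pool.Agent.H914.VarClass Pool.Agent.H914.VarClass.Obj Pool.Agent.V7H2.HT

/-- **The standard conjecture of Hodge type for towers of Lefschetz maps.** -/
theorem result {k : Type u} [Field k] {𝒱 : VarClass k} {ops : CycleOps 𝒱}
    (W : WeilCohomology.{u, v} ops) (X : 𝒱.Obj) (D : X.Cycles) (hD : X.IsCyc 1 D)
    (hHL : HardLefschetz W X D) (hA : LefschetzA W X D) (Y : 𝒱.Obj) (f : Y ⟶ X)
    (hf : IsLefschetzTower W X D Y f) :
    HardLefschetz W Y (ops.pull f D) ∧ LefschetzA W Y (ops.pull f D) ∧ HodgeTransfer W f D :=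
  hf.isLefschetzMap.main hD hHL hA

end Pool.Agent.Results.MP_361a6f_ag.LefschetzTowersH2
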