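import Mathlib
import Pool.Agent.V7H82.LR.Fin
import Pool.Agent.V7H82.LR.Num

/-!
# The standard conjecture of Hodge type in small codimensions for abelian varieties over finite fields

Over an algebraic closure of the field with `p` elements each abelian variety is isogenous to the
reduction `Y` of an abelian variety of CM type (`RedAV`; Honda, Tate). Let `Z` be such a variety, with
CM fields `E i` and Frobenius endomorphisms `π i ∈ E i`. Two complex embeddings of the fields `E i`
are flipped if some automorphism of the complex numbers fixes one and conjugates the other, or moves
`w` to `x` and `x` to the conjugate of `w`. The classes of the equivalence relation generated by not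
being flipped are permuted by the automorphisms; the embeddings of one generic CM field form classes
with one pair of conjugate embeddings, in general the classes correspond to a subfield of `E i`.

Suppose that each class belongs to one factor, consists of `b` pairs of conjugate embeddings, and

* any two pairs in the class can be moved to any two others, and `b` is not exceptional for `r`, or
* `b > 2 r` and `b` is prime, or `b` is odd and any two pairs can be moved to any two others,

or that the class belongs to a good set of factors, for example to one factor of dimension `≤ 5`.
There are only finitely many exceptional numbers for each `r`: all are at most
`2 r (r - 1) ((2 r - 1) ^ 2 - 2)` (`not_hasFrame_of_large`), and for `r = 2` they are `3`, `4`, `10`,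
`16`, `28` (`hasFrame_two`).

Then **the standard conjecture of Hodge type holds in the codimensions `s ≤ r`** for all abelian
varieties `Y` isogenous to a product of powers of the factors of `Z` and of a supersingular abelian
variety: for all polarizations (compatible with the lifting) and all primitive classes `z ≠ 0` of
algebraic cycles of codimension `s`, `(-1)^s z ∪ z ∪ E^m > 0`. The slopes and the CM types are
arbitrary, and in larger codimensions there may be exotic Tate classes on `Y`.

Proof. A Tate class of codimension `s` gives relations of length `2 s` between the Frobenius
eigenvalues. They split over the classes. The invariant scalar product of the Frobenius slopes gives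
on the pairs of a class a symmetric kernel with one absolute value `α` outside the diagonal, and with
the value `β` on the diagonal. If `α = β` or `β = 0` the relations have generators of length at most
two. Otherwise a relation of length `≤ 2 r` implies that the square of the kernel is a multiple of the
kernel (equiangular tight frame), that `θ = β / α` is an integer less than `2 r`, and the conditions
for the number of pairs and for the rank (Gerzon's bound). So all Tate classes of codimension `≤ r`
are generated by divisor classes (and classes on the small factors), and the positivity follows from
the positivity of the Rosati involution by the multiplicativity of the signs.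
-/

set_option autoImplicit false

namespace Pool.Agent.Results.MP_361a6f_ag.LowCodimensionH82

open Pool.Agent.W495.TA Pool.Agent.TH117.BL Pool.Agent.TH117.PO Pool.Agent.V7H82.LR

/-- **The standard conjecture of Hodge type in codimensions at most `r`** for the abelian varieties
over finite fields with good classes of linked Frobenius eigenvalues. -/
theorem result (p : ℕ) [Fact p.Prime] (ν : PadicAlgCl p ≃+* ℂ) (Ω : Type) [Field Ω]
    [IsAlgClosed Ω] [CharZero Ω]
    (C : (Y : RedAV p ν) → (κ : Type) → ((TM Ω Y) [⋀^κ]→ₗ[Ω] Ω) → Prop)
    (hC : IsCycleSystem Ω C) (hR : IsRosatiPositive Ω C) (hT : AreTate Ω C)
    (r : ℕ) (Z Y : RedAV p ν) (hZ : HasGoodClasses r Z) (hY : IsPowersTimesSupersingular Z Y) :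
    HodgeTypeUpTo r Ω C Y :=
  main hZ hC hR hT hY

end Pool.Agent.Results.MP_361a6f_ag.LowCodimensionH82
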