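import Pool.Agent.V7H1.HS.Main

/-!
# The standard conjecture of Hodge type and semismall morphisms

Let `f : Y → Y₀` be a semismall morphism from a smooth projective variety, for instance the
morphism from the Hilbert scheme `S^[n]` of points on a surface to the symmetric product
`S^(n)`, a small resolution, one side of a flop, or a blow-up of a smooth centre of codimension two, and
let `A = f^* A₀` be the pull-back of an ample divisor. The cohomology and the algebraic classes of `Y`
are orthogonal sums of the contributions of the strata: there are smooth varieties `Z a` (or
their quotients by finite groups), finite over the closures of the relevant strata, with the ample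
pull-back `D a` of `A₀`, and correspondences `γ a` on `Z a × Y` given by components of fibre products,
such that `γ a^* γ a_*` is `(-1) ^ (c a) κ a` times a projector on `Z a`, where
`dim Y = dim (Z a) + 2 c a` and `κ a > 0`. For `S^[n]` (Göttsche, Nakajima, de Cataldo and Migliorini)
the pieces are indexed by the partitions `ν` of `n`, `Z ν = S ^ l` with `l` the number of parts,
`c ν = n - l`, `κ ν = ∏ ν_i |Aut ν|`, and the projector is the symmetrization by `Aut ν`; since for
`n = l (l + 1) / 2` the partition with the parts `1, …, l` has no automorphisms, the whole
of `S ^ l` occurs. Such data are a `SemismallDecomposition`.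

**Theorem.** For a semismall decomposition of `Y` and `A` the following holds.

1. Homological and numerical equivalence coincide on `Y` if and only if they coincide for the
   parts of the `Z a` fixed by the projectors.
2. The standard conjecture of Hodge type holds for `Y` and the (not ample) divisor `A` if and only if
   it holds for these parts of the `Z a` and the divisors `D a`.
3. If the hard Lefschetz theorem holds for the `Z a` and `D a` (it is known for ample divisors), then
   the following are equivalent, for every divisor `E` on `Y` (think of ample divisors `A + ε E`):
   * the two conjectures for all the parts,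
   * the two conjectures for `Y` and `A`,
   * the two conjectures for `Y` and all `A + ε E` with `|ε|` small,
   * the two conjectures for `Y` and `A + ε E` for arbitrarily small `ε > 0`.

With the trivial decomposition the last part says that (for varieties on which homological and
numerical equivalence coincide) the conjecture of Hodge type is an open condition on the divisor, and
a closed one at divisors with the hard Lefschetz property.

Method: the transfer is a computation with signs, `(-1) ^ (j + c) (-1) ^ c = (-1) ^ j`. For the openness
we use the lemma of Finsler (a form which is positive on the kernel of `M` becomes positive after the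
addition of a multiple of `|M x|²`), with explicit bounds over the rational numbers; for the
closedness primitive classes for `A` are limits of primitive classes for `A + ε E`, and the limit form
is semidefinite and, by hard Lefschetz and nondegeneracy, definite.
-/

set_option autoImplicit false

open CategoryTheory AlgebraicGeometry

universe u v

namespace Pool.Agent.Results.MP_361a6f_ag.SemismallH1

open Pool.Agent.H914 Pool.Agent.H914.VarClass Pool.Agent.H914.VarClass.Obj Pool.Agent.V7H1.HS

/-- **The standard conjecture of Hodge type, and homological against numerical equivalence, for
semismall morphisms.** -/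
theorem result {k : Type u} [Field k] {𝒱 : VarClass k} {ops : CycleOps 𝒱}
    (W : WeilCohomology.{u, v} ops) (Y : 𝒱.Obj) (A : Y.Cycles) (hA : Y.IsCyc 1 A) {ι : Type}
    [Fintype ι] (Z : ι → 𝒱.Obj) (D : ∀ a, (Z a).Cycles) (c : ι → ℕ) (κ : ι → ℚ)
    (γ : ∀ a, ((Z a).prod Y).Cycles) (h : SemismallDecomposition W Y A Z D c κ γ) :
    (HomEqNum W Y ↔ ∀ a, HomEqNumOn W (Z a) (projector ops (c a) (κ a) (γ a))) ∧
    (HodgeType W Y A ↔ ∀ a, HodgeTypeOn W (Z a) (D a) (projector ops (c a) (κ a) (γ a))) ∧
    ((∀ a, HardLefschetz W (Z a) (D a)) → ∀ E : Y.Cycles, Y.IsCyc 1 E →
      List.TFAE [
        ∀ a, HomEqNumOn W (Z a) (projector ops (c a) (κ a) (γ a)) ∧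
          HodgeTypeOn W (Z a) (D a) (projector ops (c a) (κ a) (γ a)),
        HomEqNum W Y ∧ HodgeType W Y A,
        HomEqNum W Y ∧ ∃ ε₀ : ℚ, 0 < ε₀ ∧ ∀ ε : ℚ, |ε| < ε₀ → HodgeType W Y (A + ε • E),
        HomEqNum W Y ∧ ∀ δ : ℚ, 0 < δ → ∃ ε : ℚ, 0 < ε ∧ ε < δ ∧ HodgeType W Y (A + ε • E)]) :=
  ⟨homEqNum_iff' hA h, hodge_iff hA h, fun hL _ hE => semismall_tfae hA h hL hE⟩

end Pool.Agent.Results.MP_361a6f_ag.SemismallH1
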