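import Pool.Agent.V7H23.ZD.Tri

/-!
# A zero-one law for the standard conjecture of Hodge type on the powers of a variety

Let `(X, D)` be a polarized variety over an arbitrary field which satisfies the hard
Lefschetz theorem and the Lefschetz standard conjecture (for instance an abelian variety), let `b`
be the dimension of the whole cohomology `H(X)`, and let the powers `X^n` be polarized by the sum of
the pull-backs of `D`. The form `⟨z, w⟩ = (-1)^j deg (z · w · D^(n d - 2 j))` on the primitive
algebraic classes of codimension `j` on `X^n` has (over the rational numbers) a number `p_j` of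
positive and a number `q_j` of negative squares; let `a_j` be the dimension of the space spanned by
these classes in the cohomology, and let `p`, `q`, `a` be the sums of the `p_j`, `q_j`, `a_j`. So `a` is
the number of primitive algebraic classes modulo homological equivalence, and `p + q ≤ a` is the
number of primitive algebraic classes modulo numerical equivalence. The standard conjecture of Hodge
type says that the form is positive definite, so that `p = a` and `q = 0`. We prove:

* **Trichotomy.** One of the following holds.
  (A) The standard conjecture of Hodge type holds for all powers of `X`, and `(p / a, q / a) = (1, 0)`.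
  (B) Homological and numerical equivalence coincide on all powers, and `(p / a, q / a)` converges
      to `(1 / 2, 1 / 2)`, exponentially fast.
  (C) `(p / a, q / a)` converges to `(0, 0)`, with the rate `(log n / n)^(1 / 2)`.
* **Zero-one law.** The standard conjecture of Hodge type holds for all powers of `X` if and only if
  for some `ε > 0` there are infinitely many `n` with `p / a ≥ 1 / 2 + ε`. So it is enough that a
  little more than half of the primitive classes of infinitely many powers give positive squares.
* In all cases `q / (p + q)` is `0` for all powers, or converges to `1 / 2` exponentially fast.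
* Explicit bounds: `p + q ≥ b^(n-1) / n^(b^2)`, and if there is a primitive class of negative square
  on `X^m`, then `|p_j - q_j| ≤ 2 (b^(2m) - 2)^t b^(r+1)` for all `n` and all `j`, where
  `n - 1 = 2 m t + r` with `0 ≤ r < 2 m`, and `|p - q|` is at most half of this bound.

The proof. (1) The forms are restrictions of the form `⟨a, b⟩ = tr (a * b)` (with the star operator of
the Lefschetz structure) on the whole cohomology, which is multiplicative for products. If `v` is
a primitive class of negative square on `X^m`, then `v × v` and `v × D^j` are orthogonal classes of the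
same degree on `Y = X^(2m)`, with squares of opposite signs. Interchanging them gives a skew-adjoint
algebraic operator on `H(Y)` whose square is a positive multiple of a projector of rank two. On
`Y^t × X^r` one gets `t` commuting operators of this kind, and the signature of the algebraic classes
is the signature on the common kernel, a space of dimension `(b^(2m) - 2)^t b^r`.
(2) The classes of the graphs of the `n!` permutations of the factors of `X^n` have the Gram matrix
`tr (σ⁻¹ τ)`, whose rank is at least (square of the trace) / (trace of the square), and the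
latter is estimated by Burnside's lemma. This gives the lower bound for `p + q`.
(3) If a class `v ≠ 0` on `Y = X^m` is numerically trivial, then `T x = ⟨x, D^j⟩ v` is an operator
with `T ≠ 0`, `T^2 = 0`, and on `Y^t × X^r` one gets `t` commuting operators `T_i`, which send the space
`M` of the algebraic classes in the middle degree to numerically trivial classes. Hence
`p + q ≤ dim (M / (T_1 M + ⋯ + T_t M))`. Taking leading terms for the lexicographic order of the
tensor basis, one finds a set `L` of words with `|L| = dim M` which is closed under the replacement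
of the letter `0` by the letter `1`, such that the quotient has at most as many elements as the set of
the minimal words of `L`. The number of the edges leaving `L` is at least the number of the
letters `1` in the minimal words, and at most the sum over `L` of (number of letters `1`) -
(number of letters `0`); as almost all words have about `t / b^m` letters `1` and a difference
of the order `(t log t)^(1 / 2)` at most, the minimal words are a small part of `L`. By (2) the
exceptional words can be neglected.
-/

open CategoryTheory AlgebraicGeometry Finset

universe u v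

namespace Pool.Agent.Results.MP_361a6f_ag.ZeroOneLawH23

open Pool.Agent.H914 Pool.Agent.H914.VarClass Pool.Agent.H914.VarClass.Obj
  Pool.Agent.H281R3.HT Pool.Agent.W552 Pool.Agent.W539.Ker Filter Topology

variable {k : Type u} [Field k] {𝒱 : VarClass k} {ops : CycleOps 𝒱}

/-- The power `X × (X × (⋯ × X))` with `n + 1` factors, with the sum of the pull-backs of the
divisor. -/
noncomputable def power (ops : CycleOps 𝒱) (P : Polarized 𝒱) (n : ℕ) : Polarized 𝒱 :=
  nest ops n (fun _ => P)

/-- The standard conjecture of Hodge type modulo numerical equivalence: if the class of the cycle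
`z` of codimension `j ≤ dim X / 2` is primitive and `z` is not numerically equivalent to zero, then
`(-1) ^ j` times the degree of `z · z · D ^ (dim X - 2 j)` is positive. -/
def HodgeTypeNum (W : WeilCohomology.{u, v} ops) (P : Polarized 𝒱) : Prop :=
  ∀ j, 2 * j ≤ P.X.dim → ∀ z, Primitive W P.X P.D j z →
    (∃ w, P.X.IsCyc (P.X.dim - j) w ∧ P.X.V.degCycle (ops.mul z w) ≠ 0) →
    0 < pairing ops P.X P.D j z z

/-- The number of positive squares (`s = 1`) or of negative squares (`s = -1`) of the form on the
primitive cycles of codimension `j`: the largest number of pairwise orthogonal primitive cycles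
whose squares have the sign `s`. -/
noncomputable def index (W : WeilCohomology.{u, v} ops) (P : Polarized 𝒱) (j : ℕ) (s : ℚ) : ℕ :=
  sSup {r | HasFamily W P.X P.D j s r}

/-- The number of squares of sign `s` in all codimensions `j ≤ dim X / 2` together. -/
noncomputable def number (W : WeilCohomology.{u, v} ops) (P : Polarized 𝒱) (s : ℚ) : ℕ :=
  ∑ j ∈ range (P.X.dim / 2 + 1), index W P j s

/-- The space spanned by the classes of the primitive cycles of codimension `j`. -/
noncomputable def primitiveSpan (W : WeilCohomology.{u, v} ops) (P : Polarized 𝒱) (j : ℕ) :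
    Submodule W.K (W.H P.X) :=
  Submodule.span W.K {x | ∃ z, Primitive W P.X P.D j z ∧ W.cl P.X z = x}

/-- The number of primitive algebraic classes modulo homological equivalence: the sum, over all
codimensions `j ≤ dim X / 2`, of the dimensions of the spaces spanned by the classes of the primitive
cycles. -/
noncomputable def classNumber (W : WeilCohomology.{u, v} ops) (P : Polarized 𝒱) : ℕ :=
  ∑ j ∈ range (P.X.dim / 2 + 1), Module.finrank W.K (primitiveSpan W P j)

/-- The dimension of the cohomology. -/
noncomputable def betti (W : WeilCohomology.{u, v} ops) (P : Polarized 𝒱) : ℕ :=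
  Module.finrank W.K (W.H P.X)

/-- The number of squares of sign `s` on the power with `n + 1` factors. -/
noncomputable def squares (W : WeilCohomology.{u, v} ops) (P : Polarized 𝒱) (s : ℚ) (n : ℕ) : ℕ :=
  number W (power ops P n) s

/-- The proportion of the squares of sign `s` among all primitive algebraic classes, on the power
with `n + 1` factors. -/
noncomputable def share (W : WeilCohomology.{u, v} ops) (P : Polarized 𝒱) (s : ℚ) (n : ℕ) : ℝ :=
  (squares W P s n : ℝ) / classNumber W (power ops P n)

/-- The number `(b ^ M - 2) ^ q * b ^ (r + 1)`, where `M = 2 (m + 1)` and `n = M q + r` with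
`0 ≤ r < M`. -/
def bound (b m n : ℕ) : ℕ :=
  (b ^ (2 * m + 2) - 2) ^ (n / (2 * m + 2)) * b ^ (n % (2 * m + 2) + 1)

/-- The sequence `x` converges to `l`, exponentially fast. -/
def ExpConverges (x : ℕ → ℝ) (l : ℝ) : Prop :=
  ∃ C ρ : ℝ, 0 < ρ ∧ ρ < 1 ∧ ∀ n, |x n - l| ≤ C * ρ ^ n

/-- The sequence `x` is bounded by a multiple of `(log (n + 2) / (n + 1)) ^ (1 / 2)`. -/
def SlowlySmall (x : ℕ → ℝ) : Prop :=
  ∃ C : ℝ, ∀ n : ℕ, x n ≤ C * Real.sqrt (Real.log (n + 2) / (n + 1))

/-- There are finitely many squares. -/
def Finitely (W : WeilCohomology.{u, v} ops) (P : Polarized 𝒱) : Prop :=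
  ∀ n j s, 2 * j ≤ (power ops P n).X.dim → s = 1 ∨ s = -1 →
    BddAbove {r | HasFamily W (power ops P n).X (power ops P n).D j s r}

/-- The number of the classes modulo numerical equivalence is bounded from below, and by the
number of classes modulo homological equivalence. -/
def Counts (W : WeilCohomology.{u, v} ops) (P : Polarized 𝒱) : Prop :=
  ∀ n, betti W P ^ n ≤ (n + 1) ^ (betti W P ^ 2) *
    (squares W P 1 n + squares W P (-1) n) ∧
    squares W P 1 n + squares W P (-1) n ≤ classNumber W (power ops P n)

/-- The bounds for the signatures, if the numerical version fails for the power with `m + 1`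
factors. -/
def SmallSignatures (W : WeilCohomology.{u, v} ops) (P : Polarized 𝒱) : Prop :=
  ∀ m, ¬ HodgeTypeNum W (power ops P m) → ∀ n,
    |(squares W P 1 n : ℤ) - squares W P (-1) n| ≤ bound (betti W P) m n ∧
    ∀ j, 2 * j ≤ (power ops P n).X.dim →
      |(index W (power ops P n) j 1 : ℤ) - index W (power ops P n) j (-1)| ≤
        2 * bound (betti W P) m n

/-- The numerical version holds for all powers, or one half of the squares are negative,
asymptotically, with an exponentially small error. -/
def NumericalLaw (W : WeilCohomology.{u, v} ops) (P : Polarized 𝒱) : Prop :=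
  (∀ n, HodgeTypeNum W (power ops P n) ∧ squares W P (-1) n = 0) ∨
    ExpConverges (fun n => (squares W P (-1) n : ℝ) /
      ((squares W P 1 n : ℝ) + squares W P (-1) n)) (1 / 2)

/-- The trichotomy for the proportions of the positive and of the negative squares. -/
def Trichotomy (W : WeilCohomology.{u, v} ops) (P : Polarized 𝒱) : Prop :=
  (∀ n, HodgeType W (power ops P n).X (power ops P n).D ∧
      share W P 1 n = 1 ∧ share W P (-1) n = 0) ∨
    ((∀ n, HomEqNum W (power ops P n).X) ∧ ExpConverges (share W P 1) (1 / 2) ∧
      ExpConverges (share W P (-1)) (1 / 2)) ∨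
    SlowlySmall (fun n => share W P 1 n + share W P (-1) n)

/-- **The zero-one law for the standard conjecture of Hodge type on powers.** -/
theorem result (W : WeilCohomology.{u, v} ops) (P : Polarized 𝒱) (hD : P.X.IsCyc 1 P.D)
    (hdeg : 0 < P.X.V.degCycle (divPow ops P.D P.X.dim P.X.V.fundCycle))
    (hHL : HardLefschetz W P.X P.D) (hB : LefschetzB W P.X P.D) :
    Finitely W P ∧ Counts W P ∧ SmallSignatures W P ∧ NumericalLaw W P ∧ Trichotomy W P ∧
    ((∀ n, HodgeType W (power ops P n).X (power ops P n).D) ↔
      ∃ ε : ℝ, 0 < ε ∧ ∃ᶠ n in atTop, 1 / 2 + ε ≤ share W P 1 n) := by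
  obtain ⟨f, G⟩ := exists_gd hD hHL hB
  have F := G.fr
  have S := G.sy
  have hp := V7H23.ZO.pos1_of_deg F hdeg
  have hF := fun n => V7H23.ZO.fr_gpw F n
  have htt : ∀ n, V7H23.ZO.total W (power ops P n).X (power ops P n).D =
      squares W P 1 n + squares W P (-1) n :=
    fun n => V7H23.ZO.total_eq_sidx
  have hcc : ∀ n, V7H23.ZD.clsNum W (power ops P n).X (power ops P n).D =
      classNumber W (power ops P n) := fun n => rfl
  have htot : ∀ n, betti W P ^ n ≤
      (n + 1) ^ (betti W P ^ 2) *
      (squares W P 1 n + squares W P (-1) n) := by
    intro n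
    rw [← htt]
    exact V7H23.ZO.total_pw F S hp n
  have hle : ∀ n, squares W P 1 n + squares W P (-1) n ≤
      classNumber W (power ops P n) := by
    intro n
    rw [← htt, ← hcc]
    exact V7H23.ZD.total_le_clsNum (hF n)
  have hup : SmallSignatures W P := fun m h n => V7H23.ZO.upper F S hp h n
  have hone : ∀ n, 1 ≤ squares W P 1 n + squares W P (-1) n := by
    intro n
    rw [← htt]
    exact V7H23.ZO.total_pos (hF n) (V7H23.ZO.pos1_gpw F hp n)
  have hcpos : ∀ n, (0 : ℝ) < classNumber W (power ops P n) := by
    intro n
    have h1 := hone n
    have h2 := hle n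
    have h3 : 0 < classNumber W (power ops P n) := by omega
    exact_mod_cast h3
  have hb1 : 1 ≤ betti W P := by
    obtain ⟨a, ha, h11⟩ := hp
    have hne : (1 : W.H P.X) ≠ 0 := by
      intro h0
      rw [h0, map_zero] at h11
      have : ((0 : ℚ) : W.K) = (a : W.K) := by rw [← h11, Rat.cast_zero]
      have h2 : (0 : ℚ) = a := by exact_mod_cast this
      exact ha.ne h2
    exact Module.finrank_pos_iff_exists_ne_zero.2 ⟨1, hne⟩
  have hzero : ∀ n, HodgeTypeNum W (power ops P n) → squares W P (-1) n = 0 := by
    intro n h
    change number W (power ops P n) (-1) = 0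
    apply Finset.sum_eq_zero
    intro j hj
    have hj' : 2 * j ≤ (power ops P n).X.dim := by
      have := Finset.mem_range.1 hj
      omega
    exact V7H23.ZO.idx_neg_eq_zero (hF n) h hj'
  have hexp : (¬ ∀ n, HodgeTypeNum W (power ops P n)) →
      ExpConverges (fun n => (squares W P (-1) n : ℝ) /
        ((squares W P 1 n : ℝ) + squares W P (-1) n)) (1 / 2) := by
    intro h
    push Not at h
    obtain ⟨m, hm⟩ := h
    obtain ⟨C, ρ, hρ0, hρ1, hρ⟩ := V7H23.ZO.exp_bound hb1 (K := 2 * m + 2) (by omega)
      (S := fun n => (squares W P 1 n : ℤ) - squares W P (-1) n)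
      (T := fun n => squares W P 1 n + squares W P (-1) n)
      (fun n => (hup m hm n).1) htot
    exact ⟨C / 2, ρ, hρ0, hρ1, fun n => V7H23.ZO.share_bound (hρ n) (hone n)⟩
  have hA : ∀ n, HodgeType W (power ops P n).X (power ops P n).D →
      share W P 1 n = 1 ∧ share W P (-1) n = 0 := by
    intro n h
    have h1 : squares W P (-1) n = 0 := hzero n (V7H23.ZD.hnum_of_hodge (hF n) h)
    have h2 : classNumber W (power ops P n) ≤
        squares W P 1 n + squares W P (-1) n := by
      rw [← htt, ← hcc]
      exact V7H23.ZD.clsNum_le_of_hodge (hF n) h
    have h3 := hle n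
    rw [h1, add_zero] at h2 h3
    have h4 : squares W P 1 n = classNumber W (power ops P n) := le_antisymm h3 h2
    constructor
    · rw [share, h4, div_self (hcpos n).ne']
    · rw [share, h1, Nat.cast_zero, zero_div]
  have hTri : Trichotomy W P := by
    by_cases hom : ∀ n, HomEqNum W (power ops P n).X
    · by_cases num : ∀ n, HodgeTypeNum W (power ops P n)
      · left
        intro n
        have h1 : HodgeType W (power ops P n).X (power ops P n).D :=
          V7H23.ZD.hodge_of_hnum (hF n) (num n) (hom n)
        exact ⟨h1, hA n h1⟩
      · right; left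
        obtain ⟨C, ρ, hρ0, hρ1, hρ⟩ := hexp num
        have key : ∀ n, |share W P 1 n - 1 / 2| ≤ C * ρ ^ n ∧
            |share W P (-1) n - 1 / 2| ≤ C * ρ ^ n := by
          intro n
          have h1 : (squares W P 1 n : ℝ) + squares W P (-1) n =
              classNumber W (power ops P n) := by
            have h2 : classNumber W (power ops P n) ≤
                squares W P 1 n + squares W P (-1) n := by
              rw [← htt, ← hcc]
              exact V7H23.ZD.clsNum_le_of_hom (hF n) (hom n)
            exact_mod_cast le_antisymm (hle n) h2
          have h2 : |(squares W P (-1) n : ℝ) /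
              ((squares W P 1 n : ℝ) + squares W P (-1) n) - 1 / 2| ≤ C * ρ ^ n := hρ n
          rw [h1] at h2
          have h3 : share W P 1 n + share W P (-1) n = 1 := by
            rw [share, share, ← add_div, h1, div_self (hcpos n).ne']
          refine ⟨?_, h2⟩
          have h4 : share W P 1 n - 1 / 2 = -(share W P (-1) n - 1 / 2) := by linarith
          rw [h4, abs_neg]
          exact h2
        exact ⟨hom, ⟨C, ρ, hρ0, hρ1, fun n => (key n).1⟩, ⟨C, ρ, hρ0, hρ1, fun n => (key n).2⟩⟩
    · right; right
      push Not at hom
      obtain ⟨m, hm⟩ := hom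
      obtain ⟨C, hC0, hC⟩ := V7H23.ZD.few_num F S hp (m := m) hm
      refine ⟨C, fun n => ?_⟩
      have h1 := hC n
      have h2 : (V7H23.ZO.total W (power ops P n).X (power ops P n).D : ℝ) =
          (squares W P 1 n : ℝ) + squares W P (-1) n := by
        rw [htt]; push_cast; rfl
      have h3 : share W P 1 n + share W P (-1) n =
          ((squares W P 1 n : ℝ) + squares W P (-1) n) / classNumber W (power ops P n) := by
        rw [share, share, ← add_div]
      change share W P 1 n + share W P (-1) n ≤ C * Real.sqrt (Real.log (n + 2) / (n + 1))
      rw [h3, div_le_iff₀ (hcpos n), ← h2]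
      exact h1
  refine ⟨?_, fun n => ⟨htot n, hle n⟩, hup, ?_, hTri, ?_, ?_⟩
  · intro n j s hj hs
    have h1 := bddAbove_family W (hF n).hD hj
    rcases hs with rfl | rfl
    · exact h1.1
    · exact h1.2
  · by_cases h : ∀ n, HodgeTypeNum W (power ops P n)
    · exact Or.inl fun n => ⟨h n, hzero n (h n)⟩
    · exact Or.inr (hexp h)
  · intro h
    refine ⟨1 / 2, by norm_num, Frequently.of_forall fun n => ?_⟩
    rw [(hA n (h n)).1]
    norm_num
  · rintro ⟨ε, hε, hfr⟩
    have hnn : ∀ n, 0 ≤ share W P (-1) n := by
      intro n
      rw [share]
      positivity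
    rcases hTri with h | ⟨-, ⟨C, ρ, hρ0, hρ1, hρ⟩, -⟩ | ⟨C, hC⟩
    · exact fun n => (h n).1
    · exfalso
      have h1 := (tendsto_pow_atTop_nhds_zero_of_lt_one hρ0.le hρ1).const_mul C
      rw [mul_zero] at h1
      have h2 : ∀ᶠ n in atTop, C * ρ ^ n < ε := h1.eventually (gt_mem_nhds hε)
      obtain ⟨n, hn1, hn2⟩ := (hfr.and_eventually h2).exists
      have h3 := (abs_le.1 (hρ n)).2
      linarith
    · exfalso
      have h1 : Tendsto (fun n : ℕ => Real.log ((n : ℝ) + 2) / ((n : ℝ) + 1)) atTop (𝓝 0) := by
        have h2 := Real.tendsto_pow_log_div_mul_add_atTop 1 (-1) 1 one_ne_zero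
        have h3 : Tendsto (fun n : ℕ => ((n : ℝ) + 2)) atTop atTop :=
          tendsto_atTop_add_const_right _ _ tendsto_natCast_atTop_atTop
        refine (h2.comp h3).congr (fun n => ?_)
        simp only [Function.comp_apply, pow_one, one_mul]
        congr 1
        ring
      have h2 : Tendsto (fun n : ℕ => C * Real.sqrt (Real.log ((n : ℝ) + 2) / ((n : ℝ) + 1)))
          atTop (𝓝 0) := by
        have h3 := (Real.continuous_sqrt.tendsto 0).comp h1
        rw [Real.sqrt_zero] at h3
        have h4 := h3.const_mul C
        rwa [mul_zero] at h4
      have h3 : ∀ᶠ n : ℕ in atTop,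
          C * Real.sqrt (Real.log ((n : ℝ) + 2) / ((n : ℝ) + 1)) < ε :=
        h2.eventually (gt_mem_nhds hε)
      obtain ⟨n, hn1, hn2⟩ := (hfr.and_eventually h3).exists
      have h4 : share W P 1 n + share W P (-1) n ≤
        C * Real.sqrt (Real.log ((n : ℝ) + 2) / ((n : ℝ) + 1)) := hC n
      have h5 := hnn n
      linarith

end Pool.Agent.Results.MP_361a6f_ag.ZeroOneLawH23
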